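import Mathlib

/-! Project RT (MP_fdca68_pr): the largest rainbow tree is concentrated for almost all densities.
Statements and proofs of all parts. -/

namespace Pool.Agent.L7h48.RT
open Filter Topology MeasureTheory
open scoped Classical

/-- The pairs of different vertices. -/
abbrev Pr (n : ℕ) := {e : Sym2 (Fin n) // ¬ e.IsDiag}

/-- Edge-coloured graphs on `n` vertices with colours in `Fin c`: `x e = none` if `e` is not an
edge, `x e = some j` if `e` is an edge of colour `j`. -/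
abbrev Col (n c : ℕ) := Pr n → Option (Fin c)

/-- The law of the state of one pair: no edge with probability `1 - p`, an edge of colour `j`
with probability `p / c`. -/
noncomputable def w1 (c : ℕ) (p : ℝ) (s : Option (Fin c)) : ℝ := if s = none then 1 - p else p / c

/-- Expectation for independent coordinates with the law `w`. -/
noncomputable def E {ι S : Type} [Fintype ι] [DecidableEq ι] [Fintype S] (w : S → ℝ)
    (f : (ι → S) → ℝ) : ℝ := ∑ x : ι → S, (∏ e, w (x e)) * f x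

/-- The indicator of a proposition. -/
noncomputable def ind (A : Prop) : ℝ := if A then 1 else 0

/-- All edges of `H` are edges of the coloured graph `x` and have different colours. -/
def Rainbow {n c : ℕ} (x : Col n c) (H : SimpleGraph (Fin n)) : Prop :=
  (∀ e : Pr n, e.1 ∈ H.edgeSet → x e ≠ none) ∧
  ∀ e f : Pr n, e.1 ∈ H.edgeSet → f.1 ∈ H.edgeSet → x e = x f → e = f

/-- The largest order of a rainbow tree. -/
noncomputable def T {n c : ℕ} (x : Col n c) : ℕ :=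
  sSup {k : ℕ | ∃ K : (⊤ : SimpleGraph (Fin n)).Subgraph, K.coe.IsTree ∧
    Rainbow x K.spanningCoe ∧ K.verts.ncard = k}

noncomputable def Phi {n : ℕ} (l : ℝ) (H : SimpleGraph (Fin n)) : ℝ :=
  ∑ C ∈ Finset.univ.image H.connectedComponentMk, max ((C.supp.ncard : ℝ) - l) 0

noncomputable def F {n c : ℕ} (k : ℕ) (l : ℝ) (x : Col n c) : ℝ :=
  sSup (Phi l '' {H | Rainbow x H ∧ H.edgeSet.ncard + k ≤ c})

def merge {n c : ℕ} (x z : Col n c) : Col n c := fun e => (x e).orElse fun _ => z e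

/-- the components with more than `l` vertices -/
noncomputable def big {n : ℕ} (l : ℝ) (H : SimpleGraph (Fin n)) : Finset H.ConnectedComponent :=
  (Finset.univ.image H.connectedComponentMk).filter fun C => l < (C.supp.ncard : ℝ)

/-- number of edges -/
noncomputable def ne {n c : ℕ} (x : Col n c) : ℕ := (Finset.univ.filter fun e => x e ≠ none).card

def Bad {n c : ℕ} (l r : ℝ) (x z : Col n c) (H : SimpleGraph (Fin n)) : Prop :=
  ∃ (S : Finset H.ConnectedComponent) (D : Finset (Fin c)), S ⊆ big l H ∧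
    (D.card : ℝ) ≤ n / l ∧
    r / 2 ≤ ((Finset.univ.filter fun v => H.connectedComponentMk v ∈ S).card : ℝ) ∧
    r / 2 ≤ ((Finset.univ.filter fun v => H.connectedComponentMk v ∈ big l H \ S).card : ℝ) ∧
    ∀ e : Pr n, x e = none → (∃ a b, e.1 = s(a, b) ∧ H.connectedComponentMk a ∈ S ∧
      H.connectedComponentMk b ∈ big l H \ S) →
      ∀ q, z e = some q → q ∈ D ∨ ∃ f : Pr n, f.1 ∈ H.edgeSet ∧ x f = some q

/-- EFR (Efron-Stein and Chebyshev, generic finite product; compare efron_stein in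
`Pool.Agent.H999R2.KSat.ES` (uniform law) or prove by induction on the set of coordinates):
Var f <= sum_j E (f - c_j)^2 for c_j(x) = f (update x j s0) (independent of x_j), and
(f - c_j)^2 <= L^2 1_{x_j ≠ s0}, whose expectation is L^2 (1 - w s0). -/
def S_EFR : Prop := ∀ (ι S : Type) [Fintype ι] [DecidableEq ι] [Fintype S] (w : S → ℝ) (s0 : S),
  (∀ s, 0 ≤ w s) → ∑ s, w s = 1 → ∀ (f : (ι → S) → ℝ) (L t : ℝ), 0 ≤ L → 0 < t →
  (∀ x e s, |f (Function.update x e s) - f x| ≤ L) →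
  E w (fun x => ind (t ≤ |f x - E w f|)) ≤ Fintype.card ι * (1 - w s0) * L ^ 2 / t ^ 2

/-- CUT: deleting an edge splits at most one component, into two: for `|C| = |C1| + |C2|`,
`(|C1|-l)^+ + (|C2|-l)^+ >= (|C|-l)^+ - l`. -/
def S_CUT : Prop := ∀ (n : ℕ) (l : ℝ) (H : SimpleGraph (Fin n)) (e : Sym2 (Fin n)), 0 ≤ l →
  Phi l H - l ≤ Phi l (H.deleteEdges {e})

/-- FLP (from CUT): if H is optimal for y = update x e s then H minus e is admissible for x. -/
def S_FLP : Prop := ∀ (n c k : ℕ) (l : ℝ) (x : Col n c) (e : Pr n) (s : Option (Fin c)),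
  k ≤ c → 0 ≤ l → |F k l (Function.update x e s) - F k l x| ≤ l

/-- FMN: the admissible set is finite, contains `⊥` (`k <= c`); `Phi <= sum |C| = n`. -/
def S_FMN : Prop := ∀ (n c k : ℕ) (l : ℝ) (x : Col n c), k ≤ c → 0 ≤ l →
  0 ≤ F k l x ∧ F k l x ≤ n ∧ (∀ y : Col n c, (∀ e, x e ≠ none → y e = x e) → F k l x ≤ F k l y) ∧
  ∃ H, Rainbow x H ∧ H.edgeSet.ncard + k ≤ c ∧ F k l x = Phi l H

/-- PRU: let K be a rainbow tree with s = T vertices. If s <= k + 1 use F >= 0, l >= 1.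
Otherwise remove leaves k times: a subtree with s - k vertices and s - k - 1 edges; since K has s - 1
edges of different colours, s - 1 <= c, so it is admissible, and Phi >= s - k - l. (T = 0 if n = 0;
the set in T is bounded by n.) -/
def S_PRU : Prop := ∀ (n c k : ℕ) (l : ℝ) (x : Col n c), k ≤ c → 1 ≤ l →
  (T x : ℝ) ≤ F k l x + l + k

/-- TTR: a component of a rainbow graph has a spanning tree, which is a rainbow tree; T <= n. -/
def S_TTR : Prop := ∀ (n c : ℕ) (x : Col n c), T x ≤ n ∧ ∀ (H : SimpleGraph (Fin n)) (v : Fin n),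
  Rainbow x H → (H.connectedComponentMk v).supp.ncard ≤ T x

/-- PAR: if some a_i >= r/2 take {i}, the rest is > r; else add one by one until the sum is
>= r/2, it is then < r. -/
def S_PAR : Prop := ∀ (ι : Type) [Fintype ι] (a : ι → ℝ) (r : ℝ), 0 < r → (∀ i, 0 ≤ a i) →
  2 * r ≤ ∑ i, a i → (∀ i, a i ≤ ∑ i, a i - r) →
  ∃ S : Finset ι, r / 2 ≤ ∑ i ∈ S, a i ∧ r / 2 ≤ ∑ i ∈ Finset.univ \ S, a i

/-- DET (from TTR PAR): U = the union of the m = |big l H| big components, |U| >= Phi l H,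
m l <= n. Let P be a set of pairs e with x e = none, z e = some q with q not a colour of H, with
different colours, such that (number of components of H* = H + P meeting U) + |P| <= m, with |P|
maximal (P = empty is allowed). H* is rainbow for merge x z, so every component of H* has at most
T < |U| - 2r vertices. PAR for a_K = |K ∩ U|, K the components of H*, gives S' with both sides
>= r/2; S = the big components of H inside the members of S', D = the colours of P (|D| <= m <= n/l).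
A pair e between the two sides with x e = none and z e = some q, q not in D, not a colour of H,
joins two different components of H* that meet U: P + e contradicts the maximality. -/
def S_DET : Prop := ∀ (n c : ℕ) (l r : ℝ) (x z : Col n c) (H : SimpleGraph (Fin n)),
  0 < l → 0 < r → Rainbow x H → (T (merge x z) : ℝ) < Phi l H - 2 * r → Bad l r x z H

/-- AVO: product of the probabilities `1 - q |Q| / c <= exp (- q |Q| / c)` over e in P. -/
def S_AVO : Prop := ∀ (n c : ℕ) (q : ℝ) (P : Finset (Pr n)) (Q : Finset (Fin c)),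
  0 < c → 0 ≤ q → q ≤ 1 → E (w1 c q) (fun z : Col n c => ind (∀ e ∈ P, ∀ j ∈ Q, z e ≠ some j)) ≤
    Real.exp (-(q * Q.card / c * P.card))

/-- CTD: `u^t * #{D : |D| <= t} <= sum_D u^|D| = (1+u)^c`. -/
def S_CTD : Prop := ∀ (c : ℕ) (u t : ℝ), 0 < u → u ≤ 1 → 0 ≤ t →
  (((Finset.univ : Finset (Finset (Fin c))).filter fun D => (D.card : ℝ) ≤ t).card : ℝ) ≤
    (1 / u) ^ t * (1 + u) ^ c

/-- UNI (from AVO CTD): union bound over S (at most `2^(n/l)`, as `|big l H| l <= n`) and D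
(CTD with t = n/l). For given S, D let P = pairs between the two sides with x e = none:
`|P| >= (r/2)^2 - N`, Q = colours not in D and not used by H: `|Q| >= c - |H.edgeSet| - |D| >=
k - n/l`; AVO. -/
def S_UNI : Prop := ∀ (n c k : ℕ) (l r q u N : ℝ) (x : Col n c) (H : SimpleGraph (Fin n)),
  0 < c → 0 < l → 0 < r → 0 ≤ q → q ≤ 1 → 0 < u → u ≤ 1 → H.edgeSet.ncard + k ≤ c →
  (ne x : ℝ) ≤ N → (n : ℝ) / l ≤ k → N ≤ r ^ 2 / 4 →
  E (w1 c q) (fun z : Col n c => ind (Bad l r x z H)) ≤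
    (2 / u) ^ ((n : ℝ) / l) * (1 + u) ^ c * Real.exp (-(q * (k - n / l) / c * (r ^ 2 / 4 - N)))

/-- MRG: one coordinate: `sum over (a, b) with a.orElse b = s of w1 p a * w1 q b = w1 p' s`,
then the product (Finset.prod_univ_sum or induction). -/
def S_MRG : Prop := ∀ (n c : ℕ) (p q : ℝ) (f : Col n c → ℝ), 0 < c →
  E (w1 c (p + (1 - p) * q)) f =
    E (w1 c p) (fun x : Col n c => E (w1 c q) (fun z : Col n c => f (merge x z)))

/-- EDG: Markov: the expected number of edges is `p * #pairs <= p * n^2`. -/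
def S_EDG : Prop := ∀ (n c : ℕ) (p N : ℝ), 0 < c → 0 ≤ p → p ≤ 1 → 0 < N →
  E (w1 c p) (fun x : Col n c => ind (N < ne x)) ≤ (n : ℝ) ^ 2 * p / N

/-- SPR (from DET UNI EDG FMN): for x with at most N edges take H with F k l x = Phi l H (FMN),
DET and UNI; the others have probability at most EDG; E (w1 c q) of an indicator is at most 1. -/
def S_SPR : Prop := ∀ (n c k : ℕ) (l r p q u N : ℝ),
  0 < c → k ≤ c → 0 < l → 0 < r → 0 ≤ p → p ≤ 1 → 0 ≤ q → q ≤ 1 → 0 < u → u ≤ 1 → 0 < N →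
  (n : ℝ) / l ≤ k → N ≤ r ^ 2 / 4 →
  E (w1 c p) (fun x : Col n c => E (w1 c q) (fun z : Col n c =>
    ind ((T (merge x z) : ℝ) < F k l x - 2 * r))) ≤ (n : ℝ) ^ 2 * p / N +
    (2 / u) ^ ((n : ℝ) / l) * (1 + u) ^ c * Real.exp (-(q * (k - n / l) / c * (r ^ 2 / 4 - N)))

/-- ASY: beta = min (alpha/4) (eta/4), theta = d * beta * eta^2 / (64 * alpha) or smaller,
u with alpha * u <= theta/4 (so (1+u)^(alpha n) <= exp(theta n/4)), then l large:
log(2/u)/l <= theta/4 and 1/l <= beta/4; for n large the exponent is at least theta * n. -/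
def S_ASY : Prop := ∀ α η d B : ℝ, 0 < α → 0 < η → 0 < d → 0 < B →
  ∃ l β u : ℝ, 1 ≤ l ∧ 0 < β ∧ 0 < u ∧ u ≤ 1 ∧ ∀ᶠ n : ℕ in atTop,
    0 < ⌊α * n⌋₊ ∧ ⌊β * n⌋₊ ≤ ⌊α * n⌋₊ ∧ l + ⌊β * n⌋₊ ≤ η * n ∧ (n : ℝ) / l ≤ ⌊β * n⌋₊ ∧
    (n : ℝ) ^ (3 / 2 : ℝ) ≤ (η * n) ^ 2 / 4 ∧
    ∀ q : ℝ, d / n ≤ q → (n : ℝ) ^ 2 * (B / n) / (n : ℝ) ^ (3 / 2 : ℝ) +
      (2 / u) ^ ((n : ℝ) / l) * (1 + u) ^ ⌊α * n⌋₊ *
      Real.exp (-(q * (⌊β * n⌋₊ - n / l) / ⌊α * n⌋₊ * ((η * n) ^ 2 / 4 - (n : ℝ) ^ (3 / 2 : ℝ)))) ≤ η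

/-- MSR: for g = the monotone extension, `∫_a^b (g x - g (x-d)) dx = ∫_{b-d}^b g - ∫_{a-d}^a g <= d`;
Markov. -/
def S_MSR : Prop := ∀ (f : ℝ → ℝ) (a b d η : ℝ), a < b → 0 < d → 0 < η →
  MonotoneOn f (Set.Icc (a - d) b) → (∀ x ∈ Set.Icc (a - d) b, 0 ≤ f x ∧ f x ≤ 1) →
  volume {x ∈ Set.Icc a b | η < f x - f (x - d)} ≤ ENNReal.ofReal (d / η)

/-- CON (from EFR FLP FMN PRU TTR MRG SPR): for p = (1+s-d)/n, p' = (1+s)/n, q = (p'-p)/(1-p),
if the F-means differ by at most eta n then T is concentrated. For 9 eta: with probability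
>= 1 - 3 eta, T is in [A, A + 6 eta n], where A = E_p F - 3 eta n: T <= F(X) + eta n (PRU),
F(X) <= E_{p'} F + eta n, T >= F(Y) - 2 eta n (SPR), F(Y) >= E_p F - eta n (EFR, twice). As
0 <= T <= n, |E T - T| <= 9 eta n there. -/
def S_CON : Prop := ∀ (n c k : ℕ) (l η p q : ℝ), 0 < n → 0 < c → k ≤ c → 1 ≤ l → 0 < η →
  0 ≤ p → p ≤ 1 → 0 ≤ q → q ≤ 1 → l + k ≤ η * n →
  E (w1 c (p + (1 - p) * q)) (F k l : Col n c → ℝ) - E (w1 c p) (F k l : Col n c → ℝ) ≤ η * n →
  (n : ℝ) ^ 2 * (p + (1 - p) * q) * l ^ 2 / (η * n) ^ 2 ≤ η →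
  E (w1 c p) (fun x : Col n c => E (w1 c q) (fun z : Col n c =>
    ind ((T (merge x z) : ℝ) < F k l x - 2 * (η * n)))) ≤ η →
  E (w1 c (p + (1 - p) * q)) (fun x : Col n c => ind (9 * η * n <
    |(T x : ℝ) - E (w1 c (p + (1 - p) * q)) (fun y : Col n c => (T y : ℝ))|)) ≤ 3 * η

/-- MNE (from FMN MRG): E_p F is monotone in p in [0,1], and between 0 and n. -/
def S_MNE : Prop := ∀ (n c k : ℕ) (l : ℝ), 0 < c → k ≤ c → 0 ≤ l →
  MonotoneOn (fun p => E (w1 c p) (F k l : Col n c → ℝ)) (Set.Icc 0 1) ∧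
  ∀ p ∈ Set.Icc (0 : ℝ) 1, 0 ≤ E (w1 c p) (F k l : Col n c → ℝ) ∧
    E (w1 c p) (F k l : Col n c → ℝ) ≤ n

/-- MAIN (from CON SPR ASY MSR MNE). Given delta and rho: eta = min(delta/9, delta/3, ..),
d = eta rho, f(s) = E_{(1+s)/n} F / n. -/
def S_MAIN : Prop := ∀ α a b δ : ℝ, 0 < α → 0 < a → a < b → 0 < δ →
  Tendsto (fun n : ℕ => volume {s ∈ Set.Icc a b | δ < E (w1 ⌊α * n⌋₊ ((1 + s) / n))
    (fun x : Col n ⌊α * n⌋₊ => ind (δ * n < |(T x : ℝ) -
      E (w1 ⌊α * n⌋₊ ((1 + s) / n)) (fun y : Col n ⌊α * n⌋₊ => (T y : ℝ))|))}) atTop (𝓝 0)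

end Pool.Agent.L7h48.RT
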