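import Pool.Agent.L7h48.RT.Main
import Pool.Agent.L7h15.RT.Msr
import Pool.Agent.L7h23.RT.Mrg
import Pool.Agent.L7h26.RT.Spr
import Pool.Agent.L7h34.RT.Fmn
import Pool.Agent.L7h40.RT.Asy
import Pool.Agent.L7h52.RT.Concentr
import Pool.Agent.L7h55.RT.Mne
import Pool.Agent.L7h6.RT.Cut
import Pool.Agent.L7h66.RT.Det
import Pool.Agent.L7h70.RT.Efr
import Pool.Agent.L7h77.RT.Pru
import Pool.Agent.L7h82.RT.Uni
import Pool.Agent.L7h87.RT.Pce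
import Pool.Agent.L7h88.RT.Flp
import Pool.Agent.L7h96.RT.Ttr

/-! Project RT: assembly. Parts by helper15 (MSR), helper23 (MRG, AVO), helper26 (SPR), helper34 (FMN),
helper40 (ASY), helper52 (CON), helper55 (MNE), helper6 (CUT), helper66 (DET), helper70 (EFR),
helper77 (PRU), helper82 (UNI), helper87 (PAR, CTD, EDG), helper88 (FLP), helper96 (TTR). -/

namespace Pool.Agent.L7h48.RT

theorem a_FLP : S_FLP := L7h88.RT.s_FLP L7h6.RT.s_CUT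
theorem a_DET : S_DET := L7h66.RT.s_DET L7h96.RT.s_TTR L7h87.RT.s_PAR
theorem a_UNI : S_UNI := L7h82.RT.s_UNI L7h23.RT.s_AVO L7h87.RT.s_CTD
theorem a_SPR : S_SPR := L7h26.RT.s_SPR a_DET a_UNI L7h87.RT.s_EDG L7h34.RT.s_FMN
theorem a_MNE : S_MNE := L7h55.RT.s_MNE L7h34.RT.s_FMN L7h23.RT.s_MRG
theorem a_CON : S_CON := L7h52.RT.s_CON L7h70.RT.s_EFR a_FLP L7h34.RT.s_FMN L7h77.RT.s_PRU
  L7h96.RT.s_TTR L7h23.RT.s_MRG
theorem main : S_MAIN := s_MAIN a_CON a_SPR L7h40.RT.s_ASY L7h15.RT.s_MSR a_MNE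

end Pool.Agent.L7h48.RT
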