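import Pool.Agent.L7h48.RT.Main2
import Pool.Agent.L7h55.RT.Mne

namespace Pool.Agent.L7h48.RT
open Filter Topology MeasureTheory
open scoped Classical

/-- the probability that `|T - E T| > δ n` for `p = (1+s)/n` -/
noncomputable def PP (α δ : ℝ) (n : ℕ) (s : ℝ) : ℝ := E (w1 ⌊α * n⌋₊ ((1 + s) / n))
    (fun x : Col n ⌊α * n⌋₊ => ind (δ * n < |(T x : ℝ) -
      E (w1 ⌊α * n⌋₊ ((1 + s) / n)) (fun y : Col n ⌊α * n⌋₊ => (T y : ℝ))|))

theorem PP_anti {α δ δ' s : ℝ} {n : ℕ} (h : δ ≤ δ') (hn : 1 + s ≤ n) (hs : 0 < s) :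
    PP α δ' n s ≤ PP α δ n s := by
  have hn0 : (0 : ℝ) < n := by linarith
  unfold PP
  apply L7h55.RT.E_mono
  · intro t
    apply L7h55.RT.w1_nonneg
    · positivity
    · rw [div_le_one hn0]
      exact hn
  · intro x
    unfold ind
    split_ifs with h1 h2 h2
    · exact le_rfl
    · exact absurd (lt_of_le_of_lt (mul_le_mul_of_nonneg_right h hn0.le) h1) h2
    · exact zero_le_one
    · exact le_rfl

theorem ind_nonneg' (A : Prop) : 0 ≤ ind A := by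
  unfold ind
  split_ifs
  · exact zero_le_one
  · exact le_rfl

theorem PP_nonneg {α δ s : ℝ} {n : ℕ} (hn : 1 + s ≤ n) (hs : 0 < s) : 0 ≤ PP α δ n s := by
  have hn0 : (0 : ℝ) < n := by linarith
  unfold PP E
  apply Finset.sum_nonneg
  intro x _
  apply mul_nonneg
  · apply Finset.prod_nonneg
    intro e _
    apply L7h55.RT.w1_nonneg
    · positivity
    · rw [div_le_one hn0]
      exact hn
  · exact ind_nonneg' _

theorem sub2 (hM : S_MAIN2) (hSUB : S_SUB) (α : ℝ) (hα : 0 < α) (φ : ℕ → ℕ) (hφ : StrictMono φ) :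
    ∃ ψ : ℕ → ℕ, StrictMono ψ ∧ ∃ C : Set ℝ, C.Countable ∧
    ∀ s, 0 < s → s ∉ C → ∀ δ, 0 < δ → Tendsto (fun j => PP α δ (φ (ψ j)) s) atTop (𝓝 0) := by
  obtain ⟨ψ, hψ, C, hC, h⟩ := hSUB (fun δ n x => ∃ δ' ≥ δ, δ' < PP α δ' n x)
    (fun δ δ' n x hd hb => by
      obtain ⟨t, ht, h1⟩ := hb
      exact ⟨t, hd.trans ht, h1⟩)
    (fun b δ hb hδ => by
      refine ⟨⌊9 / δ⌋₊, fun d hd => ?_⟩
      have hn1 : ∀ᶠ n : ℕ in atTop, (1 + b : ℝ) < n :=
        (tendsto_natCast_atTop_atTop (R := ℝ)).eventually_gt_atTop (1 + b)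
      filter_upwards [hM α b δ hα hb hδ d hd, hn1] with n hn hnb
      obtain ⟨A, hA, hAx⟩ := hn
      refine ⟨A, Nat.le_floor hA, ?_⟩
      rintro x hx hxb hxA ⟨δ', hδ', hlt⟩
      have h1 : PP α δ n x ≤ δ := hAx x hx hxb (fun t ht => hxA t ht)
      have h2 : PP α δ' n x ≤ PP α δ n x := PP_anti hδ' (by linarith) hx
      have : δ ≤ δ' := hδ'
      linarith) φ hφ
  refine ⟨ψ, hψ, C, hC, fun s hs hsC δ hδ => ?_⟩
  rw [Metric.tendsto_atTop]
  intro e he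
  have h1 := h s hs hsC (min δ (e / 2)) (lt_min hδ (by positivity))
  have h2 : ∀ᶠ j in atTop, (1 + s : ℝ) < (φ (ψ j) : ℕ) := by
    have := ((tendsto_natCast_atTop_atTop (R := ℝ)).comp
      ((hφ.tendsto_atTop).comp hψ.tendsto_atTop)).eventually_gt_atTop (1 + s)
    exact this
  obtain ⟨N, hN⟩ := (h1.and h2).exists_forall_of_atTop
  refine ⟨N, fun j hj => ?_⟩
  obtain ⟨ha, hb⟩ := hN j hj
  push Not at ha
  have h3 := ha _ le_rfl
  have h4 : PP α δ (φ (ψ j)) s ≤ PP α (min δ (e / 2)) (φ (ψ j)) s :=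
    PP_anti (min_le_left _ _) hb.le hs
  have h5 : 0 ≤ PP α δ (φ (ψ j)) s := PP_nonneg hb.le hs
  rw [Real.dist_eq, sub_zero, abs_of_nonneg h5]
  have : min δ (e / 2) ≤ e / 2 := min_le_right _ _
  linarith

end Pool.Agent.L7h48.RT
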