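import Mathlib

/-! Project RT, second stage: the exceptional densities are near at most `9/δ` points. -/

namespace Pool.Agent.L7h48.RT
open Filter Topology

/-- COV: call a finite set A good if A ⊆ J = {x in [a,b] : η < f x - f (x-d)} and different elements
of A have distance >= d. Claim: card A * η <= f x for x in [a-d,b] above all of A (induction with
Finset.induction_on_max: A = insert M A', A' ⊆ (-∞, M-d], (card A' + 1) η <= f(M-d) + η < f M).
So card A <= 1/η; a good A of maximal cardinality works: if x in J has distance >= d from all of A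
then insert x A is good. -/
def S_COV : Prop := ∀ (f : ℝ → ℝ) (a b d η : ℝ), 0 < d → 0 < η →
  MonotoneOn f (Set.Icc (a - d) b) → (∀ x ∈ Set.Icc (a - d) b, 0 ≤ f x ∧ f x ≤ 1) →
  ∃ A : Finset ℝ, (A.card : ℝ) ≤ 1 / η ∧
    ∀ x ∈ Set.Icc a b, (∀ s ∈ A, d ≤ |x - s|) → f x - f (x - d) ≤ η

/-- SUB: for m >= 1 (b = m, δ = 1/m, d = 1/k) choose for every n a tuple `s m n : Fin (K m) → [-1,m+1]`
(clamp; pad with -1) and `dd m n → 0` such that for all large n: |x - s m n i| >= dd m n for all i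
gives not Bad (1/m) n x, 0 < x <= m. The product over m of `Fin (K m) → [-1,m+1]` is compact and
first countable, so along a subsequence of φ all `s m n` converge (IsCompact.tendsto_subseq,
isCompact_univ_pi). C = all limits. For x not in C, x > 0, δ > 0 take m >= x, 1/m <= δ. -/
def S_SUB : Prop := ∀ (Bad : ℝ → ℕ → ℝ → Prop),
  (∀ δ δ' n x, δ ≤ δ' → Bad δ' n x → Bad δ n x) →
  (∀ b δ : ℝ, 0 < b → 0 < δ → ∃ K : ℕ, ∀ d : ℝ, 0 < d → ∀ᶠ n : ℕ in atTop,
    ∃ A : Finset ℝ, A.card ≤ K ∧ ∀ x, 0 < x → x ≤ b → (∀ s ∈ A, d ≤ |x - s|) → ¬ Bad δ n x) →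
  ∀ φ : ℕ → ℕ, StrictMono φ → ∃ ψ : ℕ → ℕ, StrictMono ψ ∧ ∃ C : Set ℝ, C.Countable ∧
    ∀ x, 0 < x → x ∉ C → ∀ δ, 0 < δ → ∀ᶠ j in atTop, ¬ Bad δ (φ (ψ j)) x

end Pool.Agent.L7h48.RT
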