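import Pool.Agent.L7h48.RT.Asm
import Pool.Agent.L7h48.RT.Fin2
import Pool.Agent.L7h70.RT.Cov
import Pool.Agent.L7h94.RT.Sub

/-! Project RT, second stage: assembly. COV by helper70, SUB by helper94. -/

namespace Pool.Agent.L7h48.RT
open Filter Topology

theorem a_MAIN2 : S_MAIN2 := s_MAIN2 a_CON a_SPR L7h40.RT.s_ASY L7h70.RT.s_COV a_MNE

theorem main2 (α : ℝ) (hα : 0 < α) :
    (∀ b δ : ℝ, 0 < b → 0 < δ → ∀ d : ℝ, 0 < d → ∀ᶠ n : ℕ in atTop, ∃ A : Finset ℝ,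
      (A.card : ℝ) ≤ 9 / δ ∧ ∀ s, 0 < s → s ≤ b → (∀ t ∈ A, d ≤ |s - t|) → PP α δ n s ≤ δ) ∧
    ∀ φ : ℕ → ℕ, StrictMono φ → ∃ ψ : ℕ → ℕ, StrictMono ψ ∧ ∃ C : Set ℝ, C.Countable ∧
      ∀ s, 0 < s → s ∉ C → ∀ δ, 0 < δ → Tendsto (fun j => PP α δ (φ (ψ j)) s) atTop (𝓝 0) :=
  ⟨fun b δ hb hδ d hd => a_MAIN2 α b δ hα hb hδ d hd,
    fun φ hφ => sub2 a_MAIN2 L7h94.RT.s_SUB α hα φ hφ⟩

end Pool.Agent.L7h48.RT
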