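import Pool.Agent.L7h48.RT.Stm
import Pool.Agent.L7h48.RT.Stm2

namespace Pool.Agent.L7h48.RT
open Filter Topology MeasureTheory
open scoped Classical

def S_MAIN2 : Prop := ∀ α b δ : ℝ, 0 < α → 0 < b → 0 < δ → ∀ d : ℝ, 0 < d →
  ∀ᶠ n : ℕ in atTop, ∃ A : Finset ℝ, (A.card : ℝ) ≤ 9 / δ ∧
    ∀ s, 0 < s → s ≤ b → (∀ t ∈ A, d ≤ |s - t|) → E (w1 ⌊α * n⌋₊ ((1 + s) / n))
    (fun x : Col n ⌊α * n⌋₊ => ind (δ * n < |(T x : ℝ) -
      E (w1 ⌊α * n⌋₊ ((1 + s) / n)) (fun y : Col n ⌊α * n⌋₊ => (T y : ℝ))|)) ≤ δ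

theorem s_MAIN2 (hCON : S_CON) (hSPR : S_SPR) (hASY : S_ASY) (hCOV : S_COV) (hMNE : S_MNE) :
    S_MAIN2 := by
  intro α b δ hα hb hδ d0 hd00
  set η : ℝ := δ / 9 with hη
  have hη0 : 0 < η := by positivity
  set d : ℝ := min d0 1 with hd
  have hd0 : 0 < d := lt_min hd00 one_pos
  have hd1 : d ≤ 1 := min_le_right _ _
  have hdd : d ≤ d0 := min_le_left _ _
  obtain ⟨l, β, u, hl, hβ, hu, hu1, hev⟩ := hASY α η d (1 + b) hα hη0 hd0 (by linarith)
  have hn1 : ∀ᶠ n : ℕ in atTop, (1 + b : ℝ) < n :=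
    (tendsto_natCast_atTop_atTop (R := ℝ)).eventually_gt_atTop (1 + b)
  have hn2 : ∀ᶠ n : ℕ in atTop, (1 + b) * l ^ 2 / η ^ 3 < (n : ℝ) :=
    (tendsto_natCast_atTop_atTop (R := ℝ)).eventually_gt_atTop _
  filter_upwards [hev, hn1, hn2] with n hn hnb hnl
  obtain ⟨hc0, hkc, hlk, hnk, hN, hq⟩ := hn
  have hn0 : (0 : ℝ) < n := by linarith
  have hnN : 0 < n := by exact_mod_cast hn0
  set c := ⌊α * n⌋₊ with hc
  set k := ⌊β * n⌋₊ with hk
  set f : ℝ → ℝ := fun s => E (w1 c ((1 + s) / n)) (F k l : Col n c → ℝ) / n with hf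
  obtain ⟨hmono, hbd⟩ := hMNE n c k l hc0 hkc (by linarith)
  have hmem : ∀ s ∈ Set.Icc (0 - d) b, (1 + s) / (n : ℝ) ∈ Set.Icc (0 : ℝ) 1 := by
    intro s hs
    refine ⟨div_nonneg ?_ hn0.le, ?_⟩
    · have := hs.1
      linarith
    · rw [div_le_one hn0]
      have := hs.2
      linarith
  obtain ⟨A, hA, hAx⟩ := hCOV f 0 b d η hd0 hη0 (by
    intro s hs t ht hst
    have h1 := hmono (hmem s hs) (hmem t ht) (by
      apply div_le_div_of_nonneg_right _ hn0.le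
      linarith)
    exact div_le_div_of_nonneg_right h1 hn0.le) (by
    intro s hs
    obtain ⟨h1, h2⟩ := hbd _ (hmem s hs)
    refine ⟨div_nonneg h1 hn0.le, ?_⟩
    rw [hf]
    simp only
    rw [div_le_one hn0]
    exact h2)
  refine ⟨A, ?_, ?_⟩
  · have : 1 / η = 9 / δ := by rw [hη]; field_simp
    rw [← this]
    exact hA
  intro s hs0 hsb hsA
  have hs : s ∈ Set.Icc (0 : ℝ) b := ⟨hs0.le, hsb⟩
  have hcon := hAx s hs (fun t ht => hdd.trans (hsA t ht))
  have hsd : s - d ∈ Set.Icc (0 - d) b := ⟨by linarith [hs.1], by linarith [hs.2]⟩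
  have hs' : s ∈ Set.Icc (0 - d) b := ⟨by linarith [hs.1], hs.2⟩
  set p : ℝ := (1 + (s - d)) / n with hp
  have hp0 : 0 ≤ p := (hmem _ hsd).1
  have hp1' : p < 1 := by
    rw [hp, div_lt_one hn0]
    linarith [hs.2]
  have h1p : 0 < 1 - p := by linarith
  set q : ℝ := (d / n) / (1 - p) with hqd
  have hpq : p + (1 - p) * q = (1 + s) / n := by
    rw [hqd, mul_div_cancel₀ _ h1p.ne', hp]
    field_simp
    ring
  have hqge : d / n ≤ q := by
    rw [hqd, le_div_iff₀ h1p]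
    have : 0 ≤ d / n := by positivity
    nlinarith
  have hq0 : 0 ≤ q := by positivity
  have hq1 : q ≤ 1 := by
    rw [hqd, div_le_one h1p]
    have h3 : (1 + s) / (n : ℝ) ≤ 1 := (hmem _ hs').2
    have h4 : p + d / n = (1 + s) / n := by
      rw [hp]
      field_simp
      ring
    linarith
  have hsp := hSPR n c k l (η * n) p q u ((n : ℝ) ^ (3 / 2 : ℝ)) hc0 hkc (by linarith)
    (by positivity) hp0 hp1'.le hq0 hq1 hu hu1 (by positivity) hnk hN
  have hsp2 : E (w1 c p) (fun x : Col n c => E (w1 c q) (fun z : Col n c =>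
    ind ((T (merge x z) : ℝ) < F k l x - 2 * (η * n)))) ≤ η := by
    refine hsp.trans (le_trans ?_ (hq q hqge))
    apply add_le_add _ le_rfl
    apply div_le_div_of_nonneg_right _ (by positivity)
    apply mul_le_mul_of_nonneg_left _ (by positivity)
    rw [hp]
    apply div_le_div_of_nonneg_right _ hn0.le
    linarith [hs.2]
  have hco := hCON n c k l η p q hnN hc0 hkc hl hη0 hp0 hp1'.le hq0 hq1 hlk (by
      rw [hpq]
      have h5 : f s - f (s - d) ≤ η := hcon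
      rw [hf] at h5
      simp only at h5
      rw [← sub_div, div_le_iff₀ hn0] at h5
      exact h5) (by
      rw [hpq]
      have h6 : (n : ℝ) ^ 2 * ((1 + s) / n) * l ^ 2 / (η * n) ^ 2 = (1 + s) * l ^ 2 / (η ^ 2 * n) := by
        field_simp
      rw [h6, div_le_iff₀ (by positivity)]
      rw [div_lt_iff₀ (by positivity)] at hnl
      have h7 : (1 + s) * l ^ 2 ≤ (1 + b) * l ^ 2 :=
        mul_le_mul_of_nonneg_right (by linarith [hs.2]) (by positivity)
      nlinarith) hsp2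
  rw [hpq] at hco
  have h9 : 9 * η * n = δ * n := by rw [hη]; ring
  rw [h9] at hco
  refine hco.trans ?_
  rw [hη]
  linarith

end Pool.Agent.L7h48.RT
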